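import Pool.Agent.K4H43.IW.Stm
import Pool.Agent.K4H94.IW.Val
import Pool.Agent.Y800.HM
import Pool.Agent.Q60.MU.Reduction

/-!
# The `p`-rank of the class group of a number field is finite, in Galois-theoretic form
-/

set_option autoImplicit false

namespace Pool.Agent.K4H58.IWFin

open Subgroup Pool.Agent.Q60.MU
open scoped commutatorElement Pointwise

section grp

variable {G : Type} [Group G]

theorem index_normalCore_le (H : Subgroup G) (hH : H.index ≠ 0) :
    H.normalCore.index ≤ H.index.factorial := by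
  classical
  have hfi : H.FiniteIndex := ⟨hH⟩
  have hfin : Finite (G ⧸ H) := inferInstance
  rw [H.normalCore_eq_ker, index_ker]
  refine (Nat.card_le_card_of_injective _ Subtype.val_injective).trans ?_
  rw [Nat.card_perm]
  rfl

theorem exists_hom0 {Q : Type} [AddCommGroup Q] {p : ℕ} [Fact p.Prime] [Module (ZMod p) Q]
    {y : Q} (hy : y ≠ 0) : ∃ φ : Q →+ ZMod p, φ y ≠ 0 := by
  have h4 : ¬ ∀ φ : Q →ₗ[ZMod p] ZMod p, φ y = 0 :=
    fun h5 => hy ((Module.forall_dual_apply_eq_zero_iff (ZMod p) y).1 h5)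
  push Not at h4
  obtain ⟨φ, hφ⟩ := h4
  exact ⟨φ.toAddMonoidHom, hφ⟩

theorem exists_hom {Q : Type} [AddCommGroup Q] {p : ℕ} [Fact p.Prime] (h : ∀ x : Q, p • x = 0)
    {y : Q} (hy : y ≠ 0) : ∃ φ : Q →+ ZMod p, φ y ≠ 0 :=
  @exists_hom0 Q _ p _ (AddCommGroup.zmodModule h) y hy

/-- an element outside `W` is outside a subgroup of index `p` that contains `W` -/
theorem exists_index_p {p : ℕ} (hp : p.Prime) {Y W : Subgroup G} (hWY : W ≤ Y)
    (h1 : ∀ a ∈ Y, a ^ p ∈ W) (h2 : ∀ a ∈ Y, ∀ b ∈ Y, ⁅a, b⁆ ∈ W) {y : G} (hy : y ∈ Y)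
    (hyW : y ∉ W) : ∃ W' : Subgroup G, W' ≤ Y ∧ W ≤ W' ∧ y ∉ W' ∧ W'.relIndex Y = p := by
  classical
  have : Fact p.Prime := ⟨hp⟩
  have hN : (W.subgroupOf Y).Normal := by
    refine ⟨fun q hq l => ?_⟩
    rw [mem_subgroupOf] at hq ⊢
    have h3 : ((l * q * l⁻¹ : Y) : G) = ⁅(l : G), (q : G)⁆ * q := by
      rw [commutatorElement_def]
      push_cast
      group
    rw [h3]
    exact W.mul_mem (h2 l l.2 q q.2) hq
  let Q : Type := Y ⧸ W.subgroupOf Y
  let mk : Y →* Q := QuotientGroup.mk' (W.subgroupOf Y)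
  have hmk : Function.Surjective mk := QuotientGroup.mk'_surjective _
  have hmk1 : ∀ x : Y, mk x = 1 ↔ (x : G) ∈ W := by
    intro x
    have h3 : mk.ker = W.subgroupOf Y := QuotientGroup.ker_mk' _
    rw [← MonoidHom.mem_ker, h3, mem_subgroupOf]
  let : CommGroup Q := { (inferInstance : Group Q) with
    mul_comm := by
      intro a b
      obtain ⟨a, rfl⟩ := hmk a
      obtain ⟨b, rfl⟩ := hmk b
      have h3 : mk (a * b * (b * a)⁻¹) = 1 := by
        rw [hmk1]
        have h4 : ((a * b * (b * a)⁻¹ : Y) : G) = ⁅(a : G), (b : G)⁆ := by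
          rw [commutatorElement_def]
          push_cast
          group
        rw [h4]
        exact h2 _ a.2 _ b.2
      rw [map_mul, map_inv, mul_inv_eq_one, map_mul, map_mul] at h3
      exact h3 }
  have hy0 : Additive.ofMul (mk ⟨y, hy⟩) ≠ 0 := by
    intro h
    apply hyW
    have h3 : mk ⟨y, hy⟩ = 1 := h
    exact (hmk1 _).1 h3
  obtain ⟨φ, hφ⟩ := exists_hom (Q := Additive Q) (p := p) (by
    intro x
    obtain ⟨a, ha⟩ := hmk x.toMul
    have h3 : (x.toMul) ^ p = 1 := by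
      rw [← ha, ← map_pow, hmk1]
      exact h1 _ a.2
    exact h3) hy0
  let ψ : Y →* Multiplicative (ZMod p) := (AddMonoidHom.toMultiplicativeRight φ).comp mk
  have hψ : ∀ x : Y, ψ x = 1 ↔ φ (Additive.ofMul (mk x)) = 0 := fun x => Iff.rfl
  refine ⟨ψ.ker.map Y.subtype, map_subtype_le _, ?_, ?_, ?_⟩
  · intro w hw
    refine ⟨⟨w, hWY hw⟩, ?_, rfl⟩
    rw [SetLike.mem_coe, MonoidHom.mem_ker, hψ]
    have h5 : mk ⟨w, hWY hw⟩ = 1 := (hmk1 _).2 hw
    rw [h5, ofMul_one, map_zero]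
  · rintro ⟨x, hx, hxy⟩
    have h5 : x = ⟨y, hy⟩ := Subtype.ext hxy
    rw [h5, SetLike.mem_coe, MonoidHom.mem_ker, hψ] at hx
    exact hφ hx
  · have h5 : (ψ.ker.map Y.subtype).relIndex Y = ψ.ker.index := by
      show ((ψ.ker.map Y.subtype).subgroupOf Y).index = _
      congr 1
      exact comap_map_eq_self_of_injective Y.subtype_injective _
    rw [h5, index_ker]
    have h8 : Fact (Nat.card (Multiplicative (ZMod p))).Prime := ⟨by
      rw [Nat.card_congr Multiplicative.toAdd, Nat.card_zmod]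
      exact hp⟩
    have h6 : ψ.range = ⊤ := by
      rcases ψ.range.eq_bot_or_eq_top_of_prime_card with h | h
      · exfalso
        apply hφ
        rw [← hψ]
        have h7 : ψ ⟨y, hy⟩ ∈ ψ.range := ⟨_, rfl⟩
        rw [h, mem_bot] at h7
        exact h7
      · exact h
    rw [h6, card_top]
    simp
end grp

/-- **(FIN)** -/
theorem s_fin : Pool.Agent.K4H43.IW.S_FIN := by
  classical
  intro p hp Y hYo hYi
  set N := Y.normalCore with hN
  have hNo : IsOpen (N : Set Gal(Qb/ℚ)) := isOpen_normalCore hYo hYi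
  have hNY : N ≤ Y := normalCore_le Y
  have hfix : (IntermediateField.fixedField N).fixingSubgroup = N :=
    InfiniteGalois.fixingSubgroup_fixedField ⟨N, Subgroup.isClosed_of_isOpen _ hNo⟩
  have hfd : FiniteDimensional ℚ (IntermediateField.fixedField N) :=
    (InfiniteGalois.isOpen_iff_finite (IntermediateField.fixedField N)).1 (by rw [hfix]; exact hNo)
  obtain ⟨c, hc0, hc⟩ := exists_bad (IntermediateField.fixedField N)
  rw [hfix] at hc
  -- subgroups of index `p`
  set F : Set (Subgroup Gal(Qb/ℚ)) := {W | W ≤ Y ∧ IsOpen (W : Set Gal(Qb/ℚ)) ∧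
    W.relIndex Y = p ∧ gens p inertia Y ⊆ W} with hF
  have hFi : ∀ W ∈ F, W.index = p * Y.index := by
    rintro W ⟨h1, -, h2, -⟩
    rw [← relIndex_mul_index h1, h2]
  have hFi0 : ∀ W ∈ F, W.index ≠ 0 := fun W hW => by
    rw [hFi W hW]
    exact mul_ne_zero hp.ne_zero hYi
  have hcore := Pool.Agent.Y800.HM.finite_subgroups c.primeFactors
    (fun q hq => Nat.prime_of_mem_primeFactors hq) (p * Y.index).factorial
  have hFfin : F.Finite := by
    have h1 : F ⊆ ⋃ K ∈ (fun W : Subgroup Gal(Qb/ℚ) => W.normalCore) '' F,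
        {L : Subgroup Gal(Qb/ℚ) | K ≤ L} := by
      intro W hW
      simp only [Set.mem_iUnion]
      exact ⟨W.normalCore, ⟨W, hW, rfl⟩, normalCore_le W⟩
    refine Set.Finite.subset (Set.Finite.biUnion ?_ ?_) h1
    · refine hcore.subset ?_
      rintro _ ⟨W, hW, rfl⟩
      have hWo := isOpen_normalCore hW.2.1 (hFi0 W hW)
      refine ⟨normalCore_normal W, hWo, ?_, ?_⟩
      · refine (index_normalCore_le W (hFi0 W hW)).trans ?_
        rw [hFi W hW]
      · intro q hq hqS P hP hqP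
        suffices hs : ∀ τ : Gal(Qb/ℚ), (∀ x : NumberField.RingOfIntegers (AlgebraicClosure ℚ),
            τ • x - x ∈ P) → τ ∈ W.normalCore from hs
        intro τ hτ g
        obtain ⟨A, hA1, hA2⟩ := Pool.Agent.K4H94.IW.val P hP
        have h2 : τ ∈ inertia A := hA2 τ hτ
        have h3 : τ ∈ N := by
          by_contra h3
          obtain ⟨ℓ, hℓ, hℓA⟩ := exists_prime hc0 (hc A τ h2 h3)
          have h4 : (ℓ : Pool.Agent.Y800.ZBar) ∈ P := by
            rw [← hA1]
            simpa using hℓA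
          have hℓp := Nat.prime_of_mem_primeFactors hℓ
          have hne : q ≠ ℓ := fun h => hqS (h ▸ hℓ)
          have hco : Nat.Coprime q ℓ := (Nat.coprime_primes hq hℓp).2 hne
          apply hP.ne_top
          rw [Ideal.eq_top_iff_one]
          have h5 := Nat.isCoprime_iff_coprime.2 hco
          obtain ⟨u, v, huv⟩ := h5
          have h6 : (1 : Pool.Agent.Y800.ZBar) = (u : Pool.Agent.Y800.ZBar) * q + v * ℓ := by
            exact_mod_cast (congrArg (Int.cast : ℤ → Pool.Agent.Y800.ZBar) huv).symm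
          rw [h6]
          exact P.add_mem (P.mul_mem_left _ hqP) (P.mul_mem_left _ h4)
        have h4 : g * τ * g⁻¹ ∈ Y := hNY ((normalCore_normal Y).conj_mem τ h3 g)
        exact hW.2.2.2 (Or.inr ⟨h4, g • A, inertia_conj g A τ h2⟩)
    · rintro _ ⟨W, hW, rfl⟩
      refine finite_ge (normalCore_normal W) ?_
      have hfi : W.FiniteIndex := ⟨hFi0 W hW⟩
      exact (inferInstance : W.normalCore.FiniteIndex).index_ne_zero
  -- the intersection
  set V : Subgroup Gal(Qb/ℚ) := ⨅ W ∈ F, W with hV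
  have hVi : (V ⊓ Y).relIndex Y ≠ 0 := by
    rw [inf_relIndex_right]
    have hfi : V.FiniteIndex := by
      rw [hV]
      have := hFfin.to_subtype
      rw [iInf_subtype']
      exact Subgroup.finiteIndex_iInf fun W => ⟨hFi0 W.1 W.2⟩
    exact (inferInstance : (V.subgroupOf Y).FiniteIndex).index_ne_zero
  refine ⟨(V ⊓ Y).relIndex Y, fun W hWY hWo hWi hg => ?_⟩
  have hle : V ⊓ Y ≤ W := by
    rintro y ⟨hyV, hyY⟩
    by_contra hyW
    obtain ⟨W', h1, h2, h3, h4⟩ := exists_index_p hp hWY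
      (fun a ha => hg (Or.inl (Or.inl ⟨a, ha, rfl⟩)))
      (fun a ha b hb => hg (Or.inl (Or.inr ⟨a, ha, b, hb, rfl⟩))) hyY hyW
    apply h3
    have h5 : W' ∈ F := ⟨h1, Subgroup.isOpen_mono h2 hWo, h4, hg.trans h2⟩
    have h6 : V ≤ W' := iInf₂_le W' h5
    exact h6 hyV
  exact Nat.le_of_dvd (Nat.pos_of_ne_zero hVi) (relIndex_dvd_of_le_left Y hle)

end Pool.Agent.K4H58.IWFin
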